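import Pool.Agent.Y546.WQ.Stm6

set_option autoImplicit false

/-! # Real quadratic fields of prime discriminant: totally positive elements with even valuations
are squares -/

namespace Pool.Agent.Y309.WQ

open NumberField IsDedekindDomain Polynomial Pool.Agent.Y546.WQ

private theorem sq_ideal {K : Type} [Field K] [NumberField K] (x : 𝓞 K) (hx : x ≠ 0)
    (h : ∀ v : HeightOneSpectrum (𝓞 K), ∃ m : ℤ,
      v.valuation K (x : K) = WithZero.exp (2 * m)) :
    ∃ J : Ideal (𝓞 K), Ideal.span {x} = J ^ 2 := by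
  classical
  have hI0 : (Ideal.span {x} : Ideal (𝓞 K)) ≠ 0 := by
    rw [Ne, Ideal.zero_eq_bot, Ideal.span_singleton_eq_bot]
    exact hx
  obtain ⟨e, he⟩ : ∃ e : HeightOneSpectrum (𝓞 K) → ℕ, e = fun v =>
    (Associates.mk v.asIdeal).count (Associates.mk (Ideal.span {x})).factors := ⟨_, rfl⟩
  have hev : ∀ v, e v / 2 * 2 = e v := by
    intro v
    obtain ⟨m, hm⟩ := h v
    have h1 : v.valuation K (algebraMap (𝓞 K) K x) = WithZero.exp (-(e v : ℤ)) := by
      rw [HeightOneSpectrum.valuation_of_algebraMap, HeightOneSpectrum.intValuation_if_neg _ hx, he]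
    have h2 : WithZero.exp (2 * m) = WithZero.exp (-(e v : ℤ)) := by
      rw [← hm, ← h1]
    have h3 : 2 * m = -(e v : ℤ) := WithZero.exp_injective h2
    omega
  have hfac := Ideal.finprod_heightOneSpectrum_factorization hI0
  have hmp : ∀ v : HeightOneSpectrum (𝓞 K),
      v.maxPowDividing (Ideal.span {x}) = (v.asIdeal ^ (e v / 2)) ^ 2 := by
    intro v
    rw [← pow_mul, hev, he]
    rfl
  have hfin : Function.HasFiniteMulSupport fun v : HeightOneSpectrum (𝓞 K) =>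
      v.asIdeal ^ (e v / 2) := by
    refine Set.Finite.subset (Ideal.hasFiniteMulSupport hI0) fun v hv => ?_
    rw [Function.mem_mulSupport] at hv ⊢
    rw [hmp]
    intro h1
    apply hv
    rw [Ideal.one_eq_top] at h1 ⊢
    exact (Ideal.pow_eq_top_iff.1 h1).resolve_right (by norm_num)
  refine ⟨∏ᶠ v : HeightOneSpectrum (𝓞 K), v.asIdeal ^ (e v / 2), ?_⟩
  rw [finprod_pow hfin, ← hfac]
  exact finprod_congr fun v => hmp v

private theorem coords {K : Type} [Field K] [NumberField K] (q : ℕ) (hq : q.Prime)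
    (hK : Module.finrank ℚ K = 2) (r : K) (hr : r ^ 2 = (q : K)) :
    (∀ a : K, ∃ x y : ℚ, a = (x : K) + y * r) ∧
    (∀ x y : ℚ, Algebra.norm ℚ ((x : K) + y * r) = x ^ 2 - q * y ^ 2) ∧
    (∀ x y : ℚ, Algebra.trace ℚ K ((x : K) + y * r) = 2 * x) := by
  have hirr : ∀ x : ℚ, (x : K) ≠ r := by
    intro x hx
    have h1 : (x : K) ^ 2 = (q : K) := by rw [hx, hr]
    have h2 : x ^ 2 = (q : ℚ) := by exact_mod_cast h1
    have h3 : IsSquare (q : ℚ) := ⟨x, by rw [← h2, sq]⟩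
    have h4 : IsSquare q := by exact_mod_cast (Rat.isSquare_natCast_iff.1 h3)
    exact hq.not_isSquare h4
  have hli : LinearIndependent ℚ ![(1 : K), r] := by
    rw [LinearIndependent.pair_iff]
    intro s t hst
    rw [Algebra.smul_def, Algebra.smul_def, mul_one] at hst
    simp only [eq_ratCast] at hst
    have ht : t = 0 := by
      by_contra ht
      apply hirr (-s / t)
      have ht' : (t : K) ≠ 0 := by exact_mod_cast ht
      push_cast
      rw [div_eq_iff ht']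
      linear_combination -hst
    subst ht
    refine ⟨?_, rfl⟩
    simpa using hst
  let b := basisOfLinearIndependentOfCardEqFinrank hli (by rw [hK]; rfl)
  have hb : ∀ i, b i = ![(1 : K), r] i := fun i => by
    rw [show b i = _ from congrFun (coe_basisOfLinearIndependentOfCardEqFinrank hli _) i]
  have hb0 : b 0 = 1 := hb 0
  have hb1 : b 1 = r := hb 1
  have hrepr : ∀ x y : ℚ, b.repr ((x : K) + y * r) = Finsupp.single 0 x + Finsupp.single 1 y := by
    intro x y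
    have e1 : (x : K) + y * r = x • b 0 + y • b 1 := by
      rw [hb0, hb1, Algebra.smul_def, Algebra.smul_def, mul_one]
      simp only [eq_ratCast]
    rw [e1, map_add, map_smul, map_smul, b.repr_self, b.repr_self]
    simp
  have hM : ∀ x y : ℚ, Algebra.leftMulMatrix b ((x : K) + y * r) = !![x, q * y; y, x] := by
    intro x y
    ext i j
    rw [Algebra.leftMulMatrix_eq_repr_mul]
    fin_cases j
    · show b.repr (((x : K) + y * r) * b 0) i = _
      rw [hb0, mul_one, hrepr]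
      fin_cases i <;> simp
    · show b.repr (((x : K) + y * r) * b 1) i = _
      have e2 : ((x : K) + y * r) * b 1 = ((q * y : ℚ) : K) + x * r := by
        rw [hb1]
        push_cast
        linear_combination (y : K) * hr
      rw [e2, hrepr]
      fin_cases i <;> simp
  refine ⟨fun a => ⟨b.repr a 0, b.repr a 1, ?_⟩, fun x y => ?_, fun x y => ?_⟩
  · have h1 := b.sum_repr a
    rw [Fin.sum_univ_two, hb0, hb1, Algebra.smul_def, Algebra.smul_def, mul_one] at h1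
    simp only [eq_ratCast] at h1
    exact h1.symm
  · rw [Algebra.norm_eq_matrix_det b, hM, Matrix.det_fin_two_of]
    ring
  · rw [Algebra.trace_eq_matrix_trace b, hM, Matrix.trace_fin_two_of]
    ring

private theorem prime_even (q : ℕ) (hq : q.Prime) (hq4 : q % 4 = 1) {K : Type} [Field K]
    [NumberField K] (hK : Module.finrank ℚ K = 2) (r : K) (hr : r ^ 2 = (q : K)) (l : ℕ)
    (hl : l.Prime) (h : ∀ v : HeightOneSpectrum (𝓞 K), ∃ m : ℤ,
      v.valuation K (l : K) = WithZero.exp (2 * m)) : l = q := by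
  obtain ⟨hco, hno, htr⟩ := coords q hq hK r hr
  have hl0 : (l : 𝓞 K) ≠ 0 := by exact_mod_cast hl.ne_zero
  obtain ⟨I, hI⟩ := sq_ideal (l : 𝓞 K) hl0 (fun v => by
    obtain ⟨m, hm⟩ := h v
    exact ⟨m, by simpa using hm⟩)
  have hcard : Ideal.absNorm I = l := by
    have h1 : Ideal.absNorm (Ideal.span {(l : 𝓞 K)}) = l ^ 2 := by
      rw [Ideal.absNorm_span_natCast, RingOfIntegers.rank, hK]
    rw [hI, map_pow] at h1
    exact Nat.pow_left_injective (n := 2) (by norm_num) h1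
  have hcard' : Nat.card (𝓞 K ⧸ I) = l := by
    rw [← hcard, Ideal.absNorm_apply, Submodule.cardQuot_apply]
  obtain ⟨k, hk⟩ : ∃ k : ℕ, q = 4 * k + 1 := ⟨q / 4, by omega⟩
  have hqK : (q : K) = 4 * k + 1 := by rw [hk]; push_cast; ring
  have hint : IsIntegral ℤ ((1 + r) / 2) := by
    refine ⟨X ^ 2 - X - C (k : ℤ), by monicity!, ?_⟩
    simp only [eval₂_sub, eval₂_X_pow, eval₂_X, eq_intCast, Int.cast_natCast, eval₂_natCast]
    linear_combination (1 / 4 : K) * hr + (1 / 4 : K) * hqK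
  obtain ⟨w, hw⟩ : ∃ w : 𝓞 K, (w : K) = (1 + r) / 2 := ⟨⟨_, hint⟩, rfl⟩
  -- an integer congruent to `w`
  obtain ⟨c, hc⟩ : ∃ c : ℤ, w - (c : 𝓞 K) ∈ I := by
    have : Fact l.Prime := ⟨hl⟩
    have : Nontrivial (𝓞 K ⧸ I) := by
      have : Finite (𝓞 K ⧸ I) := Nat.finite_of_card_ne_zero (by rw [hcard']; exact hl.ne_zero)
      rw [← Finite.one_lt_card_iff_nontrivial, hcard']
      exact hl.one_lt
    have h1 : Ideal.Quotient.mk I w ∈ AddSubgroup.zmultiples (1 : 𝓞 K ⧸ I) :=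
      mem_zmultiples_of_prime_card hcard' one_ne_zero
    obtain ⟨c, hc⟩ := AddSubgroup.mem_zmultiples_iff.1 h1
    refine ⟨c, ?_⟩
    rw [← Ideal.Quotient.eq_zero_iff_mem, map_sub, ← hc]
    simp
  have hn1 : (l : ℤ) ∣ Algebra.norm ℤ (w - (c : 𝓞 K)) := by
    rw [← hcard]
    exact Ideal.absNorm_dvd_norm_of_mem hc
  have hsq : (w - (c : 𝓞 K)) ^ 2 ∈ Ideal.span {(l : 𝓞 K)} := by
    rw [hI]
    exact Ideal.pow_mem_pow hc 2
  obtain ⟨y, hy⟩ := Ideal.mem_span_singleton'.1 hsq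
  have hwK : ((w - (c : 𝓞 K) : 𝓞 K) : K) = (((1 - 2 * c) / 2 : ℚ) : K) + ((1 / 2 : ℚ) : K) * r := by
    have h7 : ((w - (c : 𝓞 K) : 𝓞 K) : K) = (w : K) - (c : K) := by simp
    rw [h7, hw]
    push_cast
    ring
  have hnorm : (Algebra.norm ℤ (w - (c : 𝓞 K)) : ℚ) = ((1 - 2 * c) ^ 2 - q) / 4 := by
    rw [Algebra.coe_norm_int, hwK, hno]
    ring
  have htrace : (l : ℚ) * (Algebra.trace ℤ (𝓞 K) y : ℚ) = ((1 - 2 * c) ^ 2 + q) / 2 := by
    rw [Algebra.coe_trace_int]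
    have h2 : (l : ℚ) * Algebra.trace ℚ K (y : K) = Algebra.trace ℚ K ((l : ℚ) • (y : K)) := by
      rw [map_smul, smul_eq_mul]
    have h3 : (l : ℚ) • (y : K) = ((((1 - 2 * c) ^ 2 + q) / 4 : ℚ) : K) +
        (((1 - 2 * c) / 2 : ℚ) : K) * r := by
      have h4 : (y : K) * (l : K) = ((w - (c : 𝓞 K) : 𝓞 K) : K) ^ 2 := by
        have h5 := congrArg (algebraMap (𝓞 K) K) hy
        rw [map_mul, map_pow] at h5
        simpa using h5
      rw [Algebra.smul_def]
      simp only [eq_ratCast, Rat.cast_natCast]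
      rw [mul_comm, h4, hwK]
      push_cast
      linear_combination (1 / 4 : K) * hr
    rw [h2, h3, htr]
    ring
  have hfin : (q : ℤ) = l * Algebra.trace ℤ (𝓞 K) y - 2 * Algebra.norm ℤ (w - (c : 𝓞 K)) := by
    have h6 : (q : ℚ) = l * (Algebra.trace ℤ (𝓞 K) y : ℚ) -
        2 * (Algebra.norm ℤ (w - (c : 𝓞 K)) : ℚ) := by
      rw [htrace, hnorm]
      ring
    exact_mod_cast h6
  have hdvd : (l : ℤ) ∣ (q : ℤ) := by
    rw [hfin]
    exact dvd_sub (dvd_mul_right _ _) (hn1.mul_left 2)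
  exact (Nat.prime_dvd_prime_iff_eq hl hq).1 (Int.natCast_dvd_natCast.1 hdvd)

private theorem pos_coords (q : ℕ) (hq : q.Prime) {K : Type} [Field K] [NumberField K]
    (hK : Module.finrank ℚ K = 2) (r : K) (hr : r ^ 2 = (q : K))
    (hco : ∀ a : K, ∃ x y : ℚ, a = (x : K) + y * r) (x y : ℚ)
    (hpos : ∀ φ : K →+* ℂ, 0 < (φ ((x : K) + y * r)).re) : 0 < x ∧ 0 < x ^ 2 - q * y ^ 2 := by
  have hcard : 1 < Fintype.card (K →+* ℂ) := by
    rw [NumberField.Embeddings.card K ℂ, hK]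
    norm_num
  obtain ⟨φ, ψ, hne⟩ := Fintype.one_lt_card_iff.1 hcard
  have hval : ∀ θ : K →+* ℂ, ∀ x y : ℚ, θ ((x : K) + y * r) = (x : ℂ) + y * θ r := by
    intro θ x y
    rw [map_add, map_mul, map_ratCast, map_ratCast]
  have hsq : ∀ θ : K →+* ℂ, θ r ^ 2 = (q : ℂ) := by
    intro θ
    rw [← map_pow, hr, map_natCast]
  have hneg : ψ r = -φ r := by
    rcases sq_eq_sq_iff_eq_or_eq_neg.1 ((hsq ψ).trans (hsq φ).symm) with h | h
    · exfalso
      apply hne
      ext a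
      obtain ⟨x, y, rfl⟩ := hco a
      rw [hval, hval, h]
    · exact h
  have h1 := hpos φ
  have h2 := hpos ψ
  rw [hval] at h1 h2
  rw [hneg] at h2
  have h3 := hsq φ
  generalize φ r = ρ at h1 h2 h3
  have h4 := congrArg Complex.re h3
  have h5 := congrArg Complex.im h3
  rw [sq, Complex.mul_re, Complex.natCast_re] at h4
  rw [sq, Complex.mul_im, Complex.natCast_im] at h5
  have hq0 : (0 : ℝ) < q := by exact_mod_cast hq.pos
  have him : ρ.im = 0 := by
    have h6 : ρ.re * ρ.im = 0 := by linarith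
    rcases mul_eq_zero.1 h6 with h | h
    · rw [h] at h4
      nlinarith [mul_self_nonneg ρ.im]
    · exact h
  rw [him] at h4
  have e1 : ((x : ℂ) + y * ρ).re = x + y * ρ.re := by
    simp [him]
  have e2 : ((x : ℂ) + y * -ρ).re = x - y * ρ.re := by
    simp [him]
    ring
  rw [e1] at h1
  rw [e2] at h2
  have hx : (0 : ℝ) < x := by linarith
  have hn : (0 : ℝ) < x ^ 2 - q * y ^ 2 := by
    have h7 : (x : ℝ) ^ 2 - q * y ^ 2 = (x + y * ρ.re) * (x - y * ρ.re) := by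
      linear_combination ((y : ℝ) ^ 2) * h4
    rw [h7]
    exact mul_pos h1 h2
  exact ⟨by exact_mod_cast hx, by exact_mod_cast hn⟩

private theorem val_exists {K : Type} [Field K] [NumberField K] (v : HeightOneSpectrum (𝓞 K))
    (x : K) (hx : x ≠ 0) : ∃ k : ℤ, v.valuation K x = WithZero.exp k := by
  have h1 : v.valuation K x ≠ 0 := (Valuation.ne_zero_iff _).2 hx
  exact ⟨WithZero.log (v.valuation K x), (WithZero.exp_log h1).symm⟩

private theorem val_nat {K : Type} [Field K] [NumberField K] (v : HeightOneSpectrum (𝓞 K))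
    (n : ℕ) (hn : (n : 𝓞 K) ∉ v.asIdeal) : v.valuation K (n : K) = 1 := by
  have h1 : ¬ v.valuation K (algebraMap (𝓞 K) K (n : 𝓞 K)) < 1 := fun h =>
    hn ((v.valuation_lt_one_iff_mem (n : 𝓞 K)).1 h)
  have h2 := v.valuation_le_one (K := K) (n : 𝓞 K)
  have h3 := le_antisymm h2 (not_lt.1 h1)
  simpa using h3

private theorem main_int (q : ℕ) (hq : q.Prime) (hq4 : q % 4 = 1) {K : Type} [Field K]
    [NumberField K] (hK : Module.finrank ℚ K = 2) (r : K) (hr : r ^ 2 = (q : K)) (α : 𝓞 K)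
    (hα : α ≠ 0) (hpos : ∀ φ : K →+* ℂ, 0 < (φ (α : K)).re)
    (h : ∀ v : HeightOneSpectrum (𝓞 K), ∃ m : ℤ,
      v.valuation K (α : K) = WithZero.exp (2 * m)) : ∃ b : K, (α : K) = b ^ 2 := by
  obtain ⟨hco, hno, htr⟩ := coords q hq hK r hr
  obtain ⟨J, hJ⟩ := sq_ideal α hα h
  obtain ⟨x, y, hxy⟩ := hco (α : K)
  rw [hxy] at hpos
  obtain ⟨hx, hN⟩ := pos_coords q hq hK r hr hco x y hpos
  obtain ⟨n, hn⟩ : ∃ n : ℕ, n = Ideal.absNorm J := ⟨_, rfl⟩
  have hnorm : x ^ 2 - q * y ^ 2 = (n : ℚ) ^ 2 := by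
    have h1 : (Algebra.norm ℤ α).natAbs = n ^ 2 := by
      rw [← Ideal.absNorm_span_singleton, hJ, map_pow, hn]
    have h2 : (Algebra.norm ℤ α : ℚ) = x ^ 2 - q * y ^ 2 := by
      rw [Algebra.coe_norm_int, hxy, hno]
    have h3 : 0 < Algebra.norm ℤ α := by
      have : (0 : ℚ) < (Algebra.norm ℤ α : ℚ) := by rw [h2]; exact hN
      exact_mod_cast this
    have h4 : (Algebra.norm ℤ α : ℤ) = (n : ℤ) ^ 2 := by
      rw [← Int.natAbs_of_nonneg h3.le, h1]
      push_cast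
      rfl
    rw [← h2, h4]
    push_cast
    rfl
  obtain ⟨s, hs⟩ : ∃ s : ℚ, s = 2 * x + 2 * n := ⟨_, rfl⟩
  have hs0 : 0 < s := by
    rw [hs]
    have : (0 : ℚ) ≤ n := Nat.cast_nonneg n
    linarith
  have hid : ((α : K) + n) ^ 2 = (α : K) * s := by
    have h1 : ((x ^ 2 - q * y ^ 2 : ℚ) : K) = (((n : ℚ) ^ 2 : ℚ) : K) := by rw [hnorm]
    push_cast at h1
    rw [hxy, hs]
    push_cast
    linear_combination (y : K) ^ 2 * hr - h1
  -- the squarefree part of `s`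
  obtain ⟨s0, c, hc, hsf⟩ := Nat.sq_mul_squarefree (s.num.natAbs * s.den)
  have hnum : 0 < s.num := Rat.num_pos.2 hs0
  have hden : (s.den : ℚ) ≠ 0 := by exact_mod_cast s.den_nz
  have hN0 : s.num.natAbs * s.den ≠ 0 :=
    mul_ne_zero (Int.natAbs_ne_zero.2 hnum.ne') s.den_nz
  have hc0 : c ≠ 0 := by
    rintro rfl
    apply hN0
    rw [← hc]
    simp
  have hss : s * (s.den : ℚ) ^ 2 = (c : ℚ) ^ 2 * s0 := by
    have h1 : (c : ℚ) ^ 2 * s0 = ((s.num.natAbs * s.den : ℕ) : ℚ) := by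
      rw [← hc]; push_cast; ring
    have h2 : ((s.num.natAbs : ℕ) : ℚ) = (s.num : ℚ) := by
      rw [← Int.cast_natCast (R := ℚ), Int.natAbs_of_nonneg hnum.le]
    rw [h1]
    push_cast
    rw [h2]
    have h3 : s * s.den = s.num := Rat.mul_den_eq_num s
    rw [← h3]
    ring
  have hcK : (c : K) ≠ 0 := by exact_mod_cast hc0
  obtain ⟨β, hβ⟩ : ∃ β : K, β = ((α : K) + n) * s.den / c := ⟨_, rfl⟩
  have hαs : (α : K) * s0 = β ^ 2 := by
    have h1 : (((s * (s.den : ℚ) ^ 2 : ℚ)) : K) = (((c : ℚ) ^ 2 * s0 : ℚ) : K) := by rw [hss]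
    push_cast at h1
    rw [hβ, div_pow, eq_div_iff (pow_ne_zero 2 hcK), mul_pow, hid]
    linear_combination -(α : K) * h1
  have hαK : (α : K) ≠ 0 := RingOfIntegers.coe_ne_zero_iff.2 hα
  have hs0' : s0 ≠ 0 := hsf.ne_zero
  have hs0K : (s0 : K) ≠ 0 := by exact_mod_cast hs0'
  have hβ0 : β ≠ 0 := by
    intro h0
    rw [h0] at hαs
    exact mul_ne_zero hαK hs0K (by rw [hαs]; simp)
  have hvs : ∀ v : HeightOneSpectrum (𝓞 K), ∃ m : ℤ,
      v.valuation K (s0 : K) = WithZero.exp (2 * m) := by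
    intro v
    obtain ⟨m, hm⟩ := h v
    obtain ⟨k, hk⟩ := val_exists v β hβ0
    obtain ⟨j, hj⟩ := val_exists v (s0 : K) hs0K
    have h1 := congrArg (v.valuation K) hαs
    rw [map_mul, map_pow, hm, hk, hj, ← WithZero.exp_add, ← WithZero.exp_nsmul] at h1
    have h2 := WithZero.exp_injective h1
    refine ⟨k - m, ?_⟩
    rw [hj]
    congr 1
    simp only [nsmul_eq_mul, Nat.cast_ofNat] at h2
    linarith
  have hprime : ∀ l : ℕ, l.Prime → l ∣ s0 → l = q := by
    intro l hl hls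
    obtain ⟨s1, hs1⟩ := hls
    have hcop : Nat.Coprime l s1 := by
      rw [hl.coprime_iff_not_dvd]
      rintro ⟨t, ht⟩
      have h1 : l * l ∣ s0 := ⟨t, by rw [hs1, ht]; ring⟩
      have h2 := hsf l h1
      exact hl.one_lt.ne' (Nat.isUnit_iff.1 h2)
    refine prime_even q hq hq4 hK r hr l hl fun v => ?_
    by_cases hlv : (l : 𝓞 K) ∈ v.asIdeal
    · have hs1v : (s1 : 𝓞 K) ∉ v.asIdeal := by
        intro hs1v
        apply v.isPrime.ne_top
        rw [Ideal.eq_top_iff_one]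
        have h3 : ((l : ℤ) * Nat.gcdA l s1 + (s1 : ℤ) * Nat.gcdB l s1 : ℤ) = 1 := by
          rw [← Nat.gcd_eq_gcd_ab, hcop]
          rfl
        have h4 : ((((l : ℤ) * Nat.gcdA l s1 + (s1 : ℤ) * Nat.gcdB l s1 : ℤ)) : 𝓞 K) = 1 := by
          rw [h3]
          simp
        rw [← h4]
        push_cast
        exact v.asIdeal.add_mem (v.asIdeal.mul_mem_right _ hlv) (v.asIdeal.mul_mem_right _ hs1v)
      obtain ⟨m, hm⟩ := hvs v
      refine ⟨m, ?_⟩
      rw [hs1] at hm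
      push_cast at hm
      rw [map_mul, val_nat v s1 hs1v, mul_one] at hm
      exact hm
    · exact ⟨0, by rw [val_nat v l hlv]; simp⟩
  by_cases h1 : s0 = 1
  · exact ⟨β, by rw [← hαs, h1]; simp⟩
  · obtain ⟨l, hl, hls⟩ := Nat.exists_prime_and_dvd h1
    have hlq := hprime l hl hls
    subst hlq
    obtain ⟨s1, hs1⟩ := hls
    have hs11 : s1 = 1 := by
      by_contra hne
      obtain ⟨l', hl', hls'⟩ := Nat.exists_prime_and_dvd hne
      have h2 := hprime l' hl' (hs1 ▸ hls'.mul_left l)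
      subst h2
      obtain ⟨t, ht⟩ := hls'
      have h3 : l' * l' ∣ s0 := ⟨t, by rw [hs1, ht]; ring⟩
      exact hl'.one_lt.ne' (Nat.isUnit_iff.1 (hsf l' h3))
    rw [hs11, mul_one] at hs1
    have hr0 : r ≠ 0 := by
      intro h0
      rw [h0] at hr
      apply hs0K
      rw [hs1, ← hr]
      simp
    refine ⟨β / r, ?_⟩
    rw [div_pow, eq_div_iff (pow_ne_zero 2 hr0), hr, ← hαs, hs1]

theorem mainKNQ : S_KNQ := by
  intro q hq hq4 K _ _ hK ⟨r, hr⟩ a ha hpos hval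
  obtain ⟨d, hd, hint⟩ :=
    ((IsFractionRing.isAlgebraic_iff ℤ ℚ K).2
      (Algebra.IsAlgebraic.isAlgebraic (R := ℚ) a)).exists_integral_multiple
  obtain ⟨α0, hα0⟩ : ∃ α0 : 𝓞 K, (α0 : K) = (d : K) * a := ⟨⟨_, hint⟩, by
    simp [zsmul_eq_mul]⟩
  have hdK : (d : K) ≠ 0 := by exact_mod_cast hd
  have hα : (((d : 𝓞 K) * α0 : 𝓞 K) : K) = (d : K) ^ 2 * a := by
    have h8 : (((d : 𝓞 K) * α0 : 𝓞 K) : K) = (d : K) * (α0 : K) := by simp
    rw [h8, hα0]
    ring
  obtain ⟨b, hb⟩ := main_int q hq hq4 hK r hr ((d : 𝓞 K) * α0) (by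
    intro h0
    rw [h0] at hα
    have h9 : ((0 : 𝓞 K) : K) = 0 := by simp
    rw [h9] at hα
    exact mul_ne_zero (pow_ne_zero 2 hdK) ha hα.symm) (by
    intro φ
    rw [hα, map_mul, map_pow, map_intCast]
    have h1 : ((d : ℂ) ^ 2 * φ a).re = (d : ℝ) ^ 2 * (φ a).re := by
      have : ((d : ℂ) ^ 2) = (((d : ℝ) ^ 2 : ℝ) : ℂ) := by push_cast; rfl
      rw [this, Complex.re_ofReal_mul]
    rw [h1]
    have h2 : (d : ℝ) ≠ 0 := by exact_mod_cast hd
    have h3 := hpos φ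
    positivity) (by
    intro v
    obtain ⟨m, hm⟩ := hval v
    obtain ⟨k, hk⟩ := val_exists v (d : K) hdK
    refine ⟨k + m, ?_⟩
    rw [hα, map_mul, map_pow, hk, hm, ← WithZero.exp_nsmul, ← WithZero.exp_add]
    congr 1
    simp only [nsmul_eq_mul, Nat.cast_ofNat]
    ring)
  rw [hα] at hb
  refine ⟨b / d, ?_⟩
  rw [div_pow, eq_div_iff (pow_ne_zero 2 hdK), ← hb]
  ring

end Pool.Agent.Y309.WQ
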